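import Pool.Agent.W810.SYN.Stm

set_option autoImplicit false
set_option maxHeartbeats 4000000

namespace Pool.Agent.W172.SYN.FEJ

open MeasureTheory AddCircle Filter Topology Pool.Agent.Results.MP_535799_an.NonSidon
open Pool.Agent.W810.SYN

noncomputable section

theorem coeff_fej (N : ℕ) (n : ℤ) : coeff (toL (fejer N)) n = lam N n := by
  rw [coeff_fejer]
  have hs : ((Finset.Icc (0 : ℤ) N ×ˢ Finset.Icc (0 : ℤ) N).filter (fun p => n = p.1 - p.2))
      = (Finset.Icc (max 0 (-n)) (min (N : ℤ) (N - n))).image (fun k => (k + n, k)) := by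
    ext p
    simp only [Finset.mem_filter, Finset.mem_product, Finset.mem_Icc, Finset.mem_image]
    constructor
    · rintro ⟨⟨⟨h1, h2⟩, h3, h4⟩, h5⟩
      refine ⟨p.2, ⟨by omega, by omega⟩, ?_⟩
      ext
      · simp only; omega
      · rfl
    · rintro ⟨k, ⟨h1, h2⟩, rfl⟩
      simp only
      refine ⟨⟨⟨by omega, by omega⟩, by omega, by omega⟩, by omega⟩
  rw [hs, Finset.card_image_of_injective _ (fun a b h => (Prod.mk.inj h).2), Int.card_Icc]
  have h2 : (((min (N : ℤ) (N - n) + 1 - max 0 (-n)).toNat : ℕ) : ℂ)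
      = ((max 0 ((N : ℤ) + 1 - |n|) : ℤ) : ℂ) := by
    have : (((min (N : ℤ) (N - n) + 1 - max 0 (-n)).toNat : ℕ) : ℤ) = max 0 ((N : ℤ) + 1 - |n|) := by
      rcases le_total 0 n with h | h
      · rw [abs_of_nonneg h]; omega
      · rw [abs_of_nonpos h]; omega
    rw [← this]
    norm_cast
  rw [h2]
  unfold lam
  rw [div_eq_mul_inv, mul_comm]

/-- `g - g * F_N` -/
def R (N : ℕ) (g : L1) : L1 := g - conv g (toL (fejer N))

theorem coeff_R (N : ℕ) (g : L1) (n : ℤ) : coeff (R N g) n = coeff g n * (1 - lam N n) := by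
  unfold R
  rw [coeff_sub, coeff_conv, coeff_fej]
  ring

theorem ext_coeff {f g : L1} (h : ∀ n, coeff f n = coeff g n) : f = g := by
  apply sub_eq_zero.mp
  apply eq_zero_of_coeff
  intro n
  rw [coeff_sub, h n, sub_self]

theorem R_add (N : ℕ) (f g : L1) : R N (f + g) = R N f + R N g := by
  apply ext_coeff
  intro n
  rw [coeff_add, coeff_R, coeff_R, coeff_R, coeff_add]
  ring

theorem R_smul (N : ℕ) (c : ℂ) (g : L1) : R N (c • g) = c • R N g := by
  apply ext_coeff
  intro n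
  rw [coeff_smul, coeff_R, coeff_R, coeff_smul]
  ring

theorem R_zero (N : ℕ) : R N 0 = 0 := by
  apply ext_coeff
  intro n
  rw [coeff_R, coeff_zero]
  ring

theorem norm_R_le (N : ℕ) (g : L1) : ‖R N g‖ ≤ 2 * ‖g‖ := by
  unfold R
  have h1 := norm_sub_le g (conv g (toL (fejer N)))
  have h2 := norm_conv_le g (toL (fejer N))
  rw [norm_fejer, mul_one] at h2
  linarith

theorem R_fourier (N : ℕ) (n : ℤ) :
    R N (fourierLp 1 n : L1) = (1 - lam N n) • (fourierLp 1 n : L1) := by
  apply ext_coeff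
  intro m
  rw [coeff_R, coeff_smul, coeff_fourierLp]
  split_ifs with h
  · subst h; ring
  · ring

theorem lam_tendsto (n : ℤ) : Tendsto (fun N : ℕ => ‖1 - lam N n‖) atTop (𝓝 0) := by
  have h0 : Tendsto (fun N : ℕ => (|n| : ℝ) * (1 / ((N : ℝ) + 1))) atTop (𝓝 0) := by
    have := (tendsto_one_div_add_atTop_nhds_zero_nat (𝕜 := ℝ)).const_mul (|n| : ℝ)
    rwa [mul_zero] at this
  refine h0.congr' ?_
  filter_upwards [eventually_ge_atTop n.natAbs] with N hN
  have h1 : (max 0 ((N : ℤ) + 1 - |n|) : ℤ) = (N : ℤ) + 1 - |n| := by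
    apply max_eq_right
    have : |n| = (n.natAbs : ℤ) := Int.abs_eq_natAbs n
    omega
  unfold lam
  rw [h1]
  have h2 : ((N : ℂ) + 1) ≠ 0 := by exact_mod_cast Nat.succ_ne_zero N
  have h3 : (1 : ℂ) - (((N : ℤ) + 1 - |n| : ℤ) : ℂ) / ((N : ℂ) + 1)
      = (((|n| : ℤ) : ℝ) * (1 / ((N : ℝ) + 1)) : ℝ) := by
    have h4 : ((|n| : ℤ) : ℂ) = ((|(n : ℝ)| : ℝ) : ℂ) := by
      rw [← Int.cast_abs]; norm_cast
    push_cast
    rw [h4]
    field_simp
    ring
  rw [h3, Complex.norm_real, Real.norm_of_nonneg]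
  · push_cast; rfl
  · positivity

theorem main : S_FEJ := by
  refine ⟨coeff_fej, fun f => ?_⟩
  have hD : ∀ g ∈ Submodule.span ℂ (Set.range (fourierLp (T := 2 * Real.pi) 1)),
      Tendsto (fun N : ℕ => ‖R N g‖) atTop (𝓝 0) := by
    intro g hg
    induction hg using Submodule.span_induction with
    | mem x hx =>
      obtain ⟨n, rfl⟩ := hx
      have := (lam_tendsto n).mul_const ‖(fourierLp 1 n : L1)‖
      rw [zero_mul] at this
      refine this.congr (fun N => ?_)
      rw [R_fourier, norm_smul]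
    | zero => simp only [R_zero, norm_zero]; exact tendsto_const_nhds
    | add x y _ _ hx hy =>
      refine squeeze_zero (fun N => norm_nonneg _) (fun N => ?_) (by simpa using hx.add hy)
      rw [R_add]
      exact norm_add_le _ _
    | smul c x _ hx =>
      have := hx.const_mul ‖c‖
      rw [mul_zero] at this
      refine this.congr (fun N => ?_)
      rw [R_smul, norm_smul]
  have hf : f ∈ closure (Submodule.span ℂ (Set.range (fourierLp (T := 2 * Real.pi) 1)) : Set L1) := by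
    have h1 := span_fourierLp_closure_eq_top (T := 2 * Real.pi) (p := 1) (by simp)
    have h2 : f ∈ (Submodule.span ℂ (Set.range (fourierLp (T := 2 * Real.pi) 1))).topologicalClosure := by
      rw [h1]; trivial
    exact h2
  rw [Metric.tendsto_atTop]
  intro ε hε
  obtain ⟨g, hg, hfg⟩ := Metric.mem_closure_iff.mp hf (ε / 4) (by positivity)
  obtain ⟨M, hM⟩ := Metric.tendsto_atTop.mp (hD g hg) (ε / 2) (by positivity)
  refine ⟨M, fun N hN => ?_⟩
  have h1 := hM N hN
  rw [Real.dist_eq, sub_zero, abs_of_nonneg (norm_nonneg _)] at h1 ⊢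
  rw [dist_eq_norm] at hfg
  have h2 : f - conv f (toL (fejer N)) = R N (f - g) + R N g := by
    rw [← R_add, sub_add_cancel]; rfl
  rw [h2]
  calc _ ≤ ‖R N (f - g)‖ + ‖R N g‖ := norm_add_le _ _
    _ ≤ 2 * ‖f - g‖ + ‖R N g‖ := by gcongr; exact norm_R_le _ _
    _ < 2 * (ε / 4) + ε / 2 := by gcongr
    _ = ε := by ring

end

end Pool.Agent.W172.SYN.FEJ
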